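import Mathlib

/-!
# Player 1 wins the edge-distinguishing game on the triangular ladder `T_10`

`λ(T_10) = 7`.  A partial colouring of `{0, …, 9}` with colours `0, …, 6` is coded by
`N = ∑ d_v 8^v`, `d_v = 0` if `v` is uncoloured and `d_v = a + 1` if `v` has colour `a`.
The table `Ps` contains the codes (up to renaming the colours) of the positions which Player 1
leaves to Player 2, with the replies to all moves of Player 2.
-/

namespace Pool.Agent.Results.MP_08a4a0_co.PlayerOneWinsT10

/-- The triangular ladder `T_n` (vertices `0, …, n - 1`): distinct `i`, `j` are adjacent exactly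
when `|i - j| ≤ 2`. -/
def ladder (n : ℕ) : SimpleGraph (Fin n) where
  Adj i j := i ≠ j ∧ (i : ℕ) ≤ j + 2 ∧ (j : ℕ) ≤ i + 2
  symm := ⟨fun _ _ h => ⟨h.1.symm, h.2.2, h.2.1⟩⟩
  loopless := ⟨fun _ h => h.1 rfl⟩

/-- A partial colouring `c` (`none` = not yet coloured) of `G` gives distinct multisets of colours
to distinct edges both of whose ends are coloured. -/
def Distinguishing {V : Type*} {k : ℕ} (G : SimpleGraph V) (c : V → Option (Fin k)) : Prop :=
  ∀ u v u' v', G.Adj u v → G.Adj u' v' → c u ≠ none → c v ≠ none → c u' ≠ none → c v' ≠ none →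
    s(c u, c v) = s(c u', c v') → s(u, v) = s(u', v')

/-- The edge-distinguishing chromatic number `λ(G)`: the least `k` for which there is a colouring
of all vertices with `k` colours which gives distinct multisets to distinct edges. -/
noncomputable def lam {V : Type*} (G : SimpleGraph V) : ℕ :=
  sInf {k | ∃ c : V → Fin k, Distinguishing G fun v => some (c v)}

/-- In the edge-distinguishing game with `k` colours, the player to move at the position `c` can
force a win: he can give some colour `a` to some uncoloured vertex `v` such that the new position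
is distinguishing and the opponent, who is then to move, cannot force a win.  (A player who has
no legal move has lost.) -/
def MoverWins {V : Type*} [Fintype V] [DecidableEq V] {k : ℕ} (G : SimpleGraph V)
    (c : V → Option (Fin k)) : Prop :=
  ∃ v, ∃ _hv : c v = none, ∃ a : Fin k, Distinguishing G (Function.update c v (some a)) ∧
    ¬ MoverWins G (Function.update c v (some a))
termination_by (Finset.univ.filter fun v => c v = none).card
decreasing_by
  apply Finset.card_lt_card
  rw [Finset.ssubset_iff_of_subset]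
  · exact ⟨v, by simp [_hv], by simp⟩
  · intro x hx
    rw [Finset.mem_filter] at hx ⊢
    refine ⟨hx.1, ?_⟩
    by_cases hxv : x = v
    · rw [hxv]; exact _hv
    · rw [Function.update_of_ne hxv] at hx; exact hx.2

/-- Player 1 (who moves first) has a winning strategy in the edge-distinguishing game on `G`,
played with `λ(G)` colours. -/
def PlayerOneWins {V : Type*} [Fintype V] [DecidableEq V] (G : SimpleGraph V) : Prop :=
  MoverWins G fun _ : V => (none : Option (Fin (lam G)))

/-! ### Renaming colours -/

section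
variable {V : Type*} {G : SimpleGraph V}

theorem dist_map {k l : ℕ} (f : Fin k → Fin l) (hf : Function.Injective f)
    (c : V → Option (Fin k)) :
    Distinguishing G (fun v => (c v).map f) ↔ Distinguishing G c := by
  have hinj : Function.Injective (Option.map f) := Option.map_injective hf
  have hs : ∀ a b a' b' : Option (Fin k),
      s(a.map f, b.map f) = s(a'.map f, b'.map f) ↔ s(a, b) = s(a', b') := by
    intro a b a' b'
    simp only [Sym2.eq_iff, hinj.eq_iff]
  unfold Distinguishing
  simp only [hs, ne_eq, Option.map_eq_none_iff]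

variable [Fintype V] [DecidableEq V]

omit [Fintype V] in
theorem update_map {k l : ℕ} (f : Fin k → Fin l) (c : V → Option (Fin k)) (v : V) (a : Fin k) :
    Function.update (fun v => (c v).map f) v (some (f a)) =
      fun x => (Function.update c v (some a) x).map f := by
  funext x
  by_cases h : x = v
  · subst h; simp
  · simp [Function.update_of_ne h]

theorem wins_map {k : ℕ} (σ : Equiv.Perm (Fin k)) (n : ℕ) : ∀ c : V → Option (Fin k),
    (Finset.univ.filter fun v => c v = none).card = n →
    (MoverWins G (fun v => (c v).map σ) ↔ MoverWins G c) := by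
  induction n using Nat.strong_induction_on with
  | _ n ih =>
    intro c hn
    have key : ∀ v, c v = none → ∀ a, (MoverWins G (fun x => (Function.update c v (some a) x).map σ)
        ↔ MoverWins G (Function.update c v (some a))) := by
      intro v hv a
      refine ih _ ?_ _ rfl
      rw [← hn]
      apply Finset.card_lt_card
      rw [Finset.ssubset_iff_of_subset]
      · exact ⟨v, by simp [hv], by simp⟩
      · intro x hx
        rw [Finset.mem_filter] at hx ⊢
        refine ⟨hx.1, ?_⟩
        by_cases hxv : x = v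
        · rw [hxv]; exact hv
        · rw [Function.update_of_ne hxv] at hx; exact hx.2
    constructor
    · intro h
      rw [MoverWins] at h ⊢
      obtain ⟨v, hv, a, hd, hw⟩ := h
      have hv' : c v = none := by simpa using hv
      have ha : a = σ (σ.symm a) := by simp
      rw [ha, update_map] at hd hw
      exact ⟨v, hv', σ.symm a, (dist_map σ σ.injective _).1 hd,
        fun h => hw ((key v hv' _).2 h)⟩
    · intro h
      rw [MoverWins] at h ⊢
      obtain ⟨v, hv, a, hd, hw⟩ := h
      refine ⟨v, by simp [hv], σ a, ?_, ?_⟩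
      · rw [update_map]; exact (dist_map σ σ.injective _).2 hd
      · rw [update_map]; exact fun h => hw ((key v hv a).1 h)

omit [DecidableEq V] in
/-- Two partial colourings with the same pattern differ by a permutation of the colours. -/
theorem exists_perm {k : ℕ} (c c' : V → Option (Fin k)) (h1 : ∀ u v, c u = c v ↔ c' u = c' v)
    (h2 : ∀ u, c u = none ↔ c' u = none) :
    ∃ σ : Equiv.Perm (Fin k), ∀ v, c' v = (c v).map σ := by
  classical
  let s : Finset (Fin k) := Finset.univ.filter fun a => ∃ u, c u = some a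
  let f : Fin k → Fin k := fun a =>
    if h : ∃ u, c u = some a then (c' h.choose).getD a else a
  have hf : ∀ u a, c u = some a → c' u = some (f a) := by
    intro u a hu
    have hex : ∃ u, c u = some a := ⟨u, hu⟩
    have e1 : c' u = c' hex.choose := (h1 u hex.choose).1 (by rw [hu, hex.choose_spec])
    have e2 : c' u ≠ none := by
      rw [Ne, ← h2 u, hu]; simp
    obtain ⟨b, hb⟩ := Option.ne_none_iff_exists'.1 e2
    have : f a = b := by
      show (if h : ∃ u, c u = some a then (c' h.choose).getD a else a) = b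
      rw [dif_pos hex, ← e1, hb]; rfl
    rw [this, hb]
  have hinj : Set.InjOn f s := by
    intro a ha b hb hab
    rw [Finset.mem_coe, Finset.mem_filter] at ha hb
    obtain ⟨u, hu⟩ := ha.2
    obtain ⟨v, hv⟩ := hb.2
    have := (h1 u v).2 (by rw [hf u a hu, hf v b hv, hab])
    rw [hu, hv] at this
    exact Option.some_injective _ this
  obtain ⟨g, hg⟩ := Finset.exists_equiv_extend_of_card_eq (t := (Finset.univ : Finset (Fin k)))
    (by simp) (s := s) (f := f) (by simp) hinj
  refine ⟨g.trans (Equiv.subtypeUnivEquiv fun x => Finset.mem_univ x), fun v => ?_⟩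
  rcases hcv : c v with _ | a
  · simp [(h2 v).1 hcv]
  · rw [hf v a hcv]
    have : (g a : Fin k) = f a := hg a (by
      rw [Finset.mem_filter]; exact ⟨Finset.mem_univ _, v, hcv⟩)
    simp [Equiv.subtypeUnivEquiv, this]

end

/-! ### Codes -/

/-- digit of a code -/
def get (N v : ℕ) : ℕ := Nat.mod (Nat.div N (Nat.pow 8 v)) 8

theorem get_def (N v : ℕ) : get N v = N / 8 ^ v % 8 := rfl

theorem get_lt (N v : ℕ) : get N v < 8 := Nat.mod_lt _ (by norm_num)

theorem beqN_iff {x y : ℕ} : Nat.beq x y = true ↔ x = y :=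
  ⟨Nat.eq_of_beq_eq_true, fun h => h ▸ Nat.beq_refl _⟩

theorem beqN_false {x y : ℕ} (h : x ≠ y) : Nat.beq x y = false := by
  rcases hb : Nat.beq x y with _ | _
  · rfl
  · exact absurd (beqN_iff.1 hb) h

theorem not_beqN_iff {x y : ℕ} : (!(Nat.beq x y)) = true ↔ x ≠ y := by
  rw [Bool.not_eq_true', ← Bool.not_eq_true, beqN_iff]

/-- membership test -/
def memB (x : ℕ) : List ℕ → Bool
  | [] => false
  | y :: t => bif Nat.beq x y then true else memB x t

theorem memB_iff (x : ℕ) (l : List ℕ) : memB x l = true ↔ x ∈ l := by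
  induction l with
  | nil => simp [memB]
  | cons y t ih =>
    rw [memB, List.mem_cons, ← ih]
    by_cases h : x = y
    · rw [beqN_iff.2 h]; simp [h]
    · rw [beqN_false h]; simp [h]

/-- the partial colouring with a given code -/
def dec (N : ℕ) (v : Fin 10) : Option (Fin 7) :=
  if h : get N v = 0 then none else some ⟨get N v - 1, by
    have : get N v < 8 := Nat.mod_lt _ (by norm_num)
    omega⟩

/-- the edges of the triangular ladder on `10` vertices -/
def edges : List (ℕ × ℕ) := [(0, 1), (0, 2), (1, 2), (1, 3), (2, 3), (2, 4), (3, 4), (3, 5), (4, 5),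
  (4, 6), (5, 6), (5, 7), (6, 7), (6, 8), (7, 8), (7, 9), (8, 9)]

/-- code of the multiset of two digits; `0` if one of them is `0` -/
def keyB (x y : ℕ) : ℕ :=
  bif Nat.beq x 0 then 0 else bif Nat.beq y 0 then 0 else
    bif Nat.ble x y then Nat.add (Nat.mul 8 x) y else Nat.add (Nat.mul 8 y) x

/-- code of the multiset of the colours at an edge; `0` if an end is uncoloured -/
def key (N : ℕ) (e : ℕ × ℕ) : ℕ := keyB (get N e.1) (get N e.2)

theorem keyB_eq (x y : ℕ) : keyB x y =
    if x = 0 then 0 else if y = 0 then 0 else 8 * min x y + max x y := by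
  unfold keyB
  rcases x with _ | x
  · simp
  · rcases y with _ | y
    · simp
    · have h1 : Nat.beq (x + 1) 0 = false := rfl
      have h2 : Nat.beq (y + 1) 0 = false := rfl
      rw [h1, h2, cond_false, cond_false, if_neg (by omega), if_neg (by omega)]
      by_cases h : x + 1 ≤ y + 1
      · rw [Nat.ble_eq_true_of_le h, cond_true, min_eq_left h, max_eq_right h]; rfl
      · have h3 : Nat.ble (x + 1) (y + 1) = false := by
          rcases hb : Nat.ble (x + 1) (y + 1) with _ | _
          · rfl
          · exact absurd (Nat.le_of_ble_eq_true hb) h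
        rw [h3, cond_false, min_eq_right (by omega), max_eq_left (by omega)]; rfl

/-- no repetition -/
def nodupB : List ℕ → Bool
  | [] => true
  | x :: t => bif memB x t then false else nodupB t

theorem nodupB_iff (l : List ℕ) : nodupB l = true ↔ l.Nodup := by
  induction l with
  | nil => simp [nodupB]
  | cons x t ih =>
    rw [nodupB, List.nodup_cons, ← memB_iff, ← ih]
    rcases memB x t <;> simp

/-- bit `x` of `m` -/
def tb (m x : ℕ) : Bool := Nat.beq (Nat.land (Nat.shiftRight m x) 1) 1

theorem tb_eq (m x : ℕ) : tb m x = m.testBit x := by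
  have h : Nat.land (Nat.shiftRight m x) 1 = (m >>> x) % 2 := Nat.and_one_is_mod _
  unfold tb
  rw [h, Nat.testBit_eq_decide_div_mod_eq, Nat.shiftRight_eq_div_pow]
  rcases Nat.mod_two_eq_zero_or_one (m / 2 ^ x) with h | h
  · rw [h]; rfl
  · rw [h]; rfl

/-- no repetition among the nonzero members of a list, none of which is a bit of `m` -/
def ndM : List ℕ → ℕ → Bool
  | [], _ => true
  | x :: t, m => bif Nat.beq x 0 then ndM t m else
      bif tb m x then false else ndM t (Nat.lor m (Nat.pow 2 x))

theorem ndM_iff (l : List ℕ) : ∀ m, ndM l m = true ↔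
    nodupB (l.filter fun x => !(Nat.beq x 0)) = true ∧ ∀ x ∈ l, x ≠ 0 → m.testBit x = false := by
  induction l with
  | nil => intro m; simp [ndM, nodupB]
  | cons x t ih =>
    intro m
    rw [ndM]
    by_cases hx : x = 0
    · rw [beqN_iff.2 hx, cond_true, ih,
        List.filter_cons_of_neg (p := fun x => !(Nat.beq x 0)) (by rw [beqN_iff.2 hx]; simp)]
      constructor
      · rintro ⟨h1, h2⟩
        refine ⟨h1, fun y hy hy0 => ?_⟩
        rcases List.mem_cons.1 hy with rfl | hy
        · exact absurd hx hy0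
        · exact h2 y hy hy0
      · rintro ⟨h1, h2⟩
        exact ⟨h1, fun y hy hy0 => h2 y (List.mem_cons_of_mem _ hy) hy0⟩
    · rw [beqN_false hx, cond_false,
        List.filter_cons_of_pos (p := fun x => !(Nat.beq x 0)) (not_beqN_iff.2 hx), tb_eq, nodupB]
      have hmem : ∀ y, memB y (t.filter fun x => !(Nat.beq x 0)) = true ↔ y ∈ t ∧ y ≠ 0 := by
        intro y
        rw [memB_iff, List.mem_filter, not_beqN_iff]
      have hor : ∀ y, (Nat.lor m (Nat.pow 2 x)).testBit y = false ↔
          m.testBit y = false ∧ x ≠ y := by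
        intro y
        have : (Nat.lor m (Nat.pow 2 x)).testBit y = (m ||| 2 ^ x).testBit y := rfl
        rw [this, Nat.testBit_or, Nat.testBit_two_pow, Bool.or_eq_false_iff, decide_eq_false_iff_not]
      rcases hb : m.testBit x with _ | _
      · rw [cond_false, ih]
        simp only [hor]
        rcases hm : memB x (t.filter fun x => !(Nat.beq x 0)) with _ | _
        · have hx' : x ∉ t := fun h => by
            have := (hmem x).2 ⟨h, hx⟩
            rw [hm] at this; exact absurd this (by simp)
          rw [cond_false]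
          constructor
          · rintro ⟨h1, h2⟩
            refine ⟨h1, fun y hy hy0 => ?_⟩
            rcases List.mem_cons.1 hy with rfl | hy
            · exact hb
            · exact (h2 y hy hy0).1
          · rintro ⟨h1, h2⟩
            refine ⟨h1, fun y hy hy0 => ⟨h2 y (List.mem_cons_of_mem _ hy) hy0, ?_⟩⟩
            rintro rfl
            exact hx' hy
        · have hx' := (hmem x).1 hm
          rw [cond_true]
          constructor
          · rintro ⟨_, h2⟩
            exact absurd rfl (h2 x hx'.1 hx).2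
          · rintro ⟨h1, _⟩
            exact absurd h1 (by simp)
      · rw [cond_true]
        constructor
        · intro h; exact absurd h (by simp)
        · rintro ⟨_, h2⟩
          have := h2 x List.mem_cons_self hx
          rw [hb] at this; exact absurd this (by simp)

/-- the codes of the multisets of a triangular ladder with the given digits -/
def keysL : List ℕ → List ℕ
  | x :: y :: z :: t => keyB x y :: keyB x z :: keysL (y :: z :: t)
  | [x, y] => [keyB x y]
  | _ => []

/-- the digits of a code -/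
def digs (N : ℕ) : List ℕ :=
  [get N 0, get N 1, get N 2, get N 3, get N 4, get N 5, get N 6, get N 7, get N 8, get N 9]

/-- test whether the position with code `N` is distinguishing -/
def legalB (N : ℕ) : Bool := ndM (keysL (digs N)) 0

theorem legalB_eq (N : ℕ) :
    legalB N = true ↔ nodupB ((edges.map (key N)).filter fun x => !(Nat.beq x 0)) = true := by
  have h : keysL (digs N) = edges.map (key N) := by
    simp only [digs, keysL, edges, List.map, key]
  unfold legalB
  rw [ndM_iff, h]
  constructor
  · exact fun hh => hh.1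
  · exact fun hh => ⟨hh, fun x _ _ => Nat.zero_testBit x⟩

theorem key_eq (N : ℕ) (e : ℕ × ℕ) : key N e =
    if get N e.1 = 0 then 0 else if get N e.2 = 0 then 0 else
      8 * min (get N e.1) (get N e.2) + max (get N e.1) (get N e.2) := keyB_eq _ _

theorem dec_eq_none {N : ℕ} {v : Fin 10} : dec N v = none ↔ get N v = 0 := by
  unfold dec; split_ifs with h <;> simp [h]

theorem dec_eq_iff {N N' : ℕ} {u v : Fin 10} : dec N u = dec N' v ↔ get N u = get N' v := by
  unfold dec
  have h1 := get_lt N u
  have h2 := get_lt N' v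
  split_ifs with h h' h' <;> simp <;> omega

theorem key_spec : ∀ x < 8, ∀ y < 8, ∀ x' < 8, ∀ y' < 8, x ≠ 0 → y ≠ 0 → x' ≠ 0 → y' ≠ 0 →
    (8 * min x y + max x y = 8 * min x' y' + max x' y' ↔ (x = x' ∧ y = y') ∨ (x = y' ∧ y = x')) := by
  intro x hx y hy x' hx' y' hy' _ _ _ _
  omega

theorem adj_edges : ∀ u v : Fin 10, (u ≠ v ∧ (u : ℕ) ≤ v + 2 ∧ (v : ℕ) ≤ u + 2) →
    (((u : ℕ), (v : ℕ)) ∈ edges ∨ ((v : ℕ), (u : ℕ)) ∈ edges) := by decide

theorem edges_adj : ∀ e ∈ edges, ∃ u v : Fin 10, e = ((u : ℕ), (v : ℕ)) ∧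
    (u ≠ v ∧ (u : ℕ) ≤ v + 2 ∧ (v : ℕ) ≤ u + 2) := by decide

theorem edges_nodup : edges.Nodup := by decide

theorem edges_lt : ∀ e ∈ edges, e.1 < e.2 := by decide

theorem legalB_iff (N : ℕ) : legalB N = true ↔ Distinguishing (ladder 10) (dec N) := by
  have hsymm : Std.Symm (fun a b : ℕ × ℕ => key N a ≠ 0 → key N b ≠ 0 → key N a ≠ key N b) :=
    ⟨fun a b h h1 h2 => (h h2 h1).symm⟩
  have h1 : legalB N = true ↔
      ∀ a ∈ edges, ∀ b ∈ edges, a ≠ b → key N a ≠ 0 → key N b ≠ 0 → key N a ≠ key N b := by
    rw [legalB_eq, nodupB_iff, List.Nodup, List.pairwise_filter, List.pairwise_map]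
    constructor
    · intro h a ha b hb hab
      have h' : edges.Pairwise fun a b => key N a ≠ 0 → key N b ≠ 0 → key N a ≠ key N b :=
        h.imp (fun {a b} hh h1 h2 => hh (not_beqN_iff.2 h1) (not_beqN_iff.2 h2))
      exact h'.forall ha hb hab
    · intro h
      apply edges_nodup.pairwise_of_forall_ne
      intro a ha b hb hab h1 h2
      exact h a ha b hb hab (not_beqN_iff.1 h1) (not_beqN_iff.1 h2)
  rw [h1]
  have hkey0 : ∀ u v : Fin 10, key N ((u : ℕ), (v : ℕ)) ≠ 0 ↔ (dec N u ≠ none ∧ dec N v ≠ none) := by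
    intro u v
    rw [Ne, Ne, Ne, dec_eq_none, dec_eq_none]
    rw [key_eq]
    split_ifs with h h' <;> simp_all
  have hkey : ∀ u v u' v' : Fin 10, dec N u ≠ none → dec N v ≠ none → dec N u' ≠ none →
      dec N v' ≠ none → (key N ((u : ℕ), (v : ℕ)) = key N ((u' : ℕ), (v' : ℕ)) ↔
        s(dec N u, dec N v) = s(dec N u', dec N v')) := by
    intro u v u' v' a1 a2 a3 a4
    rw [Ne, dec_eq_none] at a1 a2 a3 a4
    rw [Sym2.eq_iff, dec_eq_iff, dec_eq_iff, dec_eq_iff, dec_eq_iff]
    rw [key_eq, key_eq]
    rw [if_neg a1, if_neg a2, if_neg a3, if_neg a4]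
    exact key_spec _ (get_lt _ _) _ (get_lt _ _) _ (get_lt _ _) _ (get_lt _ _) a1 a2 a3 a4
  constructor
  · intro h
    -- orient the edges
    have core : ∀ u v u' v' : Fin 10, ((u : ℕ), (v : ℕ)) ∈ edges → ((u' : ℕ), (v' : ℕ)) ∈ edges →
        dec N u ≠ none → dec N v ≠ none → dec N u' ≠ none → dec N v' ≠ none →
        s(dec N u, dec N v) = s(dec N u', dec N v') → s(u, v) = s(u', v') := by
      intro u v u' v' he he' a1 a2 a3 a4 hs
      by_contra hne
      refine h _ he _ he' ?_ ((hkey0 u v).2 ⟨a1, a2⟩) ((hkey0 u' v').2 ⟨a3, a4⟩)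
        ((hkey u v u' v' a1 a2 a3 a4).2 hs)
      intro heq
      apply hne
      have e1 : (u : ℕ) = u' := congrArg Prod.fst heq
      have e2 : (v : ℕ) = v' := congrArg Prod.snd heq
      rw [Fin.ext e1, Fin.ext e2]
    intro u v u' v' ha ha' a1 a2 a3 a4 hs
    rcases adj_edges u v ha with he | he <;> rcases adj_edges u' v' ha' with he' | he'
    · exact core u v u' v' he he' a1 a2 a3 a4 hs
    · have := core u v v' u' he he' a1 a2 a4 a3 (by rw [hs, Sym2.eq_swap])
      rw [this, Sym2.eq_swap]
    · have := core v u u' v' he he' a2 a1 a3 a4 (by rw [← hs, Sym2.eq_swap])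
      rw [← this, Sym2.eq_swap]
    · have := core v u v' u' he he' a2 a1 a4 a3 (by rw [Sym2.eq_swap, hs, Sym2.eq_swap])
      rw [Sym2.eq_swap, this, Sym2.eq_swap]
  · intro h a ha b hb hab hk1 hk2 hk
    obtain ⟨u, v, rfl, hadj⟩ := edges_adj a ha
    obtain ⟨u', v', rfl, hadj'⟩ := edges_adj b hb
    obtain ⟨a1, a2⟩ := (hkey0 u v).1 hk1
    obtain ⟨a3, a4⟩ := (hkey0 u' v').1 hk2
    have hs := h u v u' v' hadj hadj' a1 a2 a3 a4 ((hkey u v u' v' a1 a2 a3 a4).1 hk)
    have l1 := edges_lt _ ha
    have l2 := edges_lt _ hb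
    simp only at l1 l2
    rw [Sym2.eq_iff] at hs
    rcases hs with ⟨rfl, rfl⟩ | ⟨rfl, rfl⟩
    · exact hab rfl
    · omega

theorem get_add (N : ℕ) (v : Fin 10) (hv : get N v = 0) (a : ℕ) (ha : a < 8) (u : Fin 10) :
    get (N + a * 8 ^ (v : ℕ)) u = if u = v then a else get N u := by
  rw [get_def] at *
  rw [get_def]
  rcases lt_trichotomy (u : ℕ) v with hlt | heq | hgt
  · rw [if_neg (by intro h; rw [h] at hlt; exact lt_irrefl _ hlt)]
    obtain ⟨t, ht⟩ := Nat.exists_eq_add_of_lt hlt
    have e : N + a * 8 ^ (v : ℕ) = N + 8 ^ (u : ℕ) * (8 * (a * 8 ^ t)) := by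
      rw [ht, pow_succ, pow_add]; ring
    rw [e, Nat.add_mul_div_left _ _ (by positivity)]
    omega
  · have huv : u = v := Fin.ext heq
    rw [if_pos huv, huv, mul_comm, Nat.add_mul_div_left _ _ (by positivity)]
    omega
  · rw [if_neg (by intro h; rw [h] at hgt; exact lt_irrefl _ hgt)]
    obtain ⟨t, ht⟩ := Nat.exists_eq_add_of_lt hgt
    have e : (8 : ℕ) ^ (u : ℕ) = 8 ^ (v : ℕ) * 8 * 8 ^ t := by
      rw [ht, pow_succ, pow_add]; ring
    rw [e, ← Nat.div_div_eq_div_mul, ← Nat.div_div_eq_div_mul, ← Nat.div_div_eq_div_mul,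
      ← Nat.div_div_eq_div_mul, mul_comm a, Nat.add_mul_div_left _ _ (by positivity)]
    have : (N / 8 ^ (v : ℕ) + a) / 8 = N / 8 ^ (v : ℕ) / 8 := by omega
    rw [this]

theorem dec_add (N : ℕ) (v : Fin 10) (hv : get N v = 0) (a : Fin 7) :
    dec (N + (a + 1) * 8 ^ (v : ℕ)) = Function.update (dec N) v (some a) := by
  funext u
  have h := get_add N v hv (a + 1) (by omega) u
  by_cases hu : u = v
  · subst hu
    rw [if_pos rfl] at h
    rw [Function.update_self]
    unfold dec
    rw [dif_neg (by rw [h]; omega)]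
    congr 1
    apply Fin.ext
    simp only [h]
    omega
  · rw [if_neg hu] at h
    rw [Function.update_of_ne hu, dec_eq_iff, h]

/-! ### The check -/

/-- position in a list, counted from `1` -/
def posB (x : ℕ) : List ℕ → ℕ
  | [] => 0
  | y :: t => bif Nat.beq x y then 1 else Nat.succ (posB x t)

/-- renaming of the colours by order of first occurrence: `m` lists the colours seen so far -/
def relAux : List ℕ → ℕ → List ℕ → ℕ
  | [], _, _ => 0
  | v :: t, N, m =>
    bif Nat.beq (get N v) 0 then relAux t N m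
    else bif memB (get N v) m then
      Nat.add (Nat.mul (posB (get N v) m) (Nat.pow 8 v)) (relAux t N m)
    else Nat.add (Nat.mul (Nat.succ m.length) (Nat.pow 8 v)) (relAux t N (m ++ [get N v]))

/-- canonical form of a code -/
def rel (N : ℕ) : ℕ := relAux [0, 1, 2, 3, 4, 5, 6, 7, 8, 9] N []

/-- equality of truth values -/
def eqB : Bool → Bool → Bool
  | true, b => b
  | false, b => !b

theorem eqB_iff (a b : Bool) : eqB a b = true ↔ (a = true ↔ b = true) := by
  cases a <;> cases b <;> simp [eqB]

/-- compare a pair of digits with the following ones -/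
def sameR (x y : ℕ) : List ℕ → List ℕ → Bool
  | a :: s, b :: t => eqB (Nat.beq x a) (Nat.beq y b) && sameR x y s t
  | _, _ => true

/-- the two lists of digits have the same pattern -/
def sameL : List ℕ → List ℕ → Bool
  | a :: s, b :: t => eqB (Nat.beq a 0) (Nat.beq b 0) && (sameR a b s t && sameL s t)
  | _, _ => true

/-- the two codes have the same pattern -/
def sameB (N N' : ℕ) : Bool := sameL (digs N) (digs N')

theorem sameR_get (x y : ℕ) (s t : List ℕ) (h : sameR x y s t = true) (i : ℕ)
    (hs : i < s.length) (ht : i < t.length) : (x = s[i] ↔ y = t[i]) := by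
  induction s generalizing t i with
  | nil => simp at hs
  | cons a s ih =>
    cases t with
    | nil => simp at ht
    | cons b t =>
      rw [sameR, Bool.and_eq_true, eqB_iff, beqN_iff, beqN_iff] at h
      cases i with
      | zero => exact h.1
      | succ i =>
        simp only [List.length_cons, Nat.add_lt_add_iff_right] at hs ht
        simpa using ih t h.2 i hs ht

theorem sameL_get (s t : List ℕ) (h : sameL s t = true) :
    (∀ i (hs : i < s.length) (ht : i < t.length), (s[i] = 0 ↔ t[i] = 0)) ∧
    ∀ i j (hi : i < j) (hs : j < s.length) (ht : j < t.length), (s[i] = s[j] ↔ t[i] = t[j]) := by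
  induction s generalizing t with
  | nil => exact ⟨fun i hs => by simp at hs, fun i j _ hs => by simp at hs⟩
  | cons a s ih =>
    cases t with
    | nil => exact ⟨fun i _ ht => by simp at ht, fun i j _ _ ht => by simp at ht⟩
    | cons b t =>
      rw [sameL, Bool.and_eq_true, Bool.and_eq_true, eqB_iff, beqN_iff, beqN_iff] at h
      obtain ⟨h0, h1, h2⟩ := h
      obtain ⟨ih1, ih2⟩ := ih t h2
      constructor
      · intro i hs ht
        cases i with
        | zero => exact h0
        | succ i =>
          simp only [List.length_cons, Nat.add_lt_add_iff_right] at hs ht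
          simpa using ih1 i hs ht
      · intro i j hij hs ht
        obtain ⟨j, rfl⟩ : ∃ j', j = j' + 1 := ⟨j - 1, by omega⟩
        simp only [List.length_cons, Nat.add_lt_add_iff_right] at hs ht
        cases i with
        | zero => simpa using sameR_get a b s t h1 j hs ht
        | succ i => simpa using ih2 i j (by omega) hs ht

theorem digs_lt (N : ℕ) {u : ℕ} (h : u < 10) : u < (digs N).length := h

theorem digs_get (N : ℕ) : ∀ u (h : u < (digs N).length), (digs N)[u] = get N u := by
  intro u h
  have h' : u < 10 := h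
  interval_cases u <;> rfl

theorem same_perm {N N' : ℕ} (h : sameB N N' = true) :
    ∃ σ : Equiv.Perm (Fin 7), ∀ v, dec N' v = (dec N v).map σ := by
  unfold sameB at h
  obtain ⟨g0, g1⟩ := sameL_get _ _ h
  have h0 : ∀ u < 10, (get N u = 0 ↔ get N' u = 0) := by
    intro u hu
    have := g0 u (digs_lt N hu) (digs_lt N' hu)
    rwa [digs_get, digs_get] at this
  have h1 : ∀ u < 10, ∀ v < u, (get N u = get N v ↔ get N' u = get N' v) := by
    intro u hu v hv
    have := g1 v u hv (digs_lt N hu) (digs_lt N' hu)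
    rw [digs_get, digs_get, digs_get, digs_get] at this
    rw [eq_comm, this, eq_comm]
  apply exists_perm
  · intro u v
    rw [dec_eq_iff, dec_eq_iff]
    rcases lt_trichotomy (u : ℕ) v with hlt | heq | hgt
    · rw [eq_comm, h1 v v.isLt u hlt, eq_comm]
    · rw [heq]; simp
    · exact h1 u u.isLt v hgt
  · intro u
    rw [dec_eq_none, dec_eq_none]
    exact h0 u u.isLt

/-- the positions left to Player 2 and the replies to the moves of Player 2: the entry `r` of the
list means: if Player 2 gives the digit `(r / 10) % 8` to the vertex `r % 10`, Player 1 gives the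
digit `r / 800` to the vertex `(r / 80) % 10` -/
def Ps : List (ℕ × List ℕ) :=
  [
      (1, [1291, 1381, 1391, 1401, 1411, 1421, 1431, 1372, 2342, 3152, 3962, 4772, 5582, 6392, 1933,
      2023, 2833, 3643, 4453, 5263, 6073, 2174, 1064, 1074, 1084, 1094, 1104, 1114, 1375, 1865,
      2675, 3485, 4295, 5105, 5915, 896, 2346, 3156, 3966, 4776, 5586, 6396, 1697, 1147, 1157, 1167,
      1177, 1187, 1197, 1298, 1548, 1558, 1568, 1578, 1588, 1598, 2259, 1789, 2599, 3409, 4219,
      5029, 5839]),
      (167772161, [1211, 2911, 3721, 4531, 5341, 6151, 2012, 2912, 3722, 4532, 5342, 6152, 1133,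
      1943, 2833, 3643, 4453, 5263, 6073, 1054, 1864, 1234, 1244, 1254, 1264, 1274, 895, 985, 2675,
      3485, 4295, 5105, 5915, 1066, 2516, 3326, 4136, 4946, 5756, 2677, 3487, 4297, 5107, 5917]),
      (17039361, [2581, 1791, 1801, 1811, 1821, 1831, 2502, 1712, 1722, 1732, 1742, 1752, 2333,
      1783, 2593, 3403, 4213, 5023, 5833, 1864, 2674, 3484, 4294, 5104, 5914, 2745, 1955, 1965,
      1975, 1985, 1995, 1069, 1079, 1089, 1099, 1109, 1119]),
      (268959745, [1851, 1941, 1151, 1161, 1171, 1181, 1191, 2732, 1862, 1952, 1962, 1972, 1982,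
      1992, 1133, 903, 1793, 1803, 1813, 1823, 1833, 2494, 1704, 994, 1004, 1014, 1024, 1034, 975,
      1065, 1795, 1805, 1815, 1825, 1835]),
      (2129921, [2661, 1871, 1881, 1891, 1901, 1911, 3142, 2352, 2362, 2372, 2382, 2392, 2503, 1713,
      1723, 1733, 1743, 1753, 2504, 1714, 1724, 1734, 1744, 1754, 2668, 1878, 1888, 1898, 1908,
      1918, 2589, 1799, 1809, 1819, 1829, 1839]),
      (4198401, [2011, 2261, 2111, 2121, 2131, 2141, 2151, 2253, 2343, 2113, 2123, 2133, 2143, 2153,
      3135, 905, 3715, 2925, 2935, 2945, 2955, 2336, 2506, 3636, 2846, 2856, 2866, 2876, 898, 1708,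
      1078, 1088, 1098, 1108, 1118, 1059, 909, 1239, 1249, 1259, 1269, 1279]),
      (8705, [2995, 3805, 4615, 5425, 6235, 2346, 3076, 3886, 4696, 5506, 6316, 3057, 2347, 2837,
      3647, 4457, 5267, 6077, 1538, 2988, 2918, 3728, 4538, 5348, 6158, 1459, 2109, 2279, 2289,
      2299, 2309, 2319]),
      (66561, [2331, 2271, 2281, 2291, 2301, 2311, 2332, 2272, 2282, 2292, 2302, 2312, 1536, 3796,
      3006, 3016, 3026, 3036, 1457, 3717, 2927, 2937, 2947, 2957, 1378, 2508, 1558, 1568, 1578,
      1588, 1598, 1299, 909, 1399, 1409, 1419, 1429, 1439]),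
      (2097217, [3063, 2273, 2283, 2293, 2303, 2313, 2824, 2034, 2044, 2054, 2064, 2074, 2745, 1955,
      1965, 1975, 1985, 1995, 2746, 1956, 1966, 1976, 1986, 1996, 2668, 1878, 1888, 1898, 1908,
      1918, 2749, 1959, 1969, 1979, 1989, 1999]),
      (268435585, [2191, 2201, 2211, 2221, 2231, 2103, 2113, 2123, 2133, 2143, 2153, 2984, 1314,
      1324, 1334, 1344, 1354, 2255, 2905, 2115, 2125, 2135, 2145, 2155, 2736, 1866, 2036, 2046,
      2056, 2066, 2076, 2507, 1957, 1967, 1977, 1987, 1997, 1228, 2038, 2048, 2058, 2068, 2078]),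
      (262153, [1543, 1553, 1563, 1573, 1583, 1593, 2344, 3154, 3964, 4774, 5584, 6394, 1545, 1555,
      1565, 1575, 1585, 1595, 3067, 2277, 2287, 2297, 2307, 2317, 2988, 2198, 2208, 2218, 2228,
      2238, 1859, 1949, 2759, 3569, 4379, 5189, 5999]),
      (2097169, [3632, 2842, 2852, 2862, 2872, 1303, 1233, 1243, 1253, 1263, 1273, 3054, 1544, 1234,
      1244, 1254, 1264, 1274, 2655, 3395, 2605, 2615, 2625, 2635, 1856, 1556, 1566, 1576, 1586,
      1596, 1858, 1158, 1168, 1178, 1188, 1198, 1939, 1159, 1169, 1179, 1189, 1199]),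
    (272896001, [3471, 2681, 2691, 2701, 2711, 3313, 2523, 2533, 2543, 2553]),
    (406884353, [3871, 3881, 4691, 5501, 6311, 2528, 2538, 2548, 2558]),
      (9244673, [3931, 4761, 4771, 5581, 6391, 4693, 5503, 6313, 4298, 5108, 5918, 4259, 929, 3339,
      3349, 3359]),
      (184590337, [3691, 4281, 3491, 3501, 3511, 4282, 3492, 3502, 3512, 4123, 3333, 3343, 3353,
      926, 936, 946, 956]),
      (404791297, [4201, 3411, 3421, 3431, 4122, 3332, 3342, 3352, 4203, 3413, 3423, 3433, 4208,
      3418, 3428, 3438]),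
      (17145857, [4201, 3411, 3421, 3431, 4122, 3332, 3342, 3352, 3963, 4773, 5583, 6393, 3489,
      4299, 5109, 5919]),
    (285475329, []),
    (168296961, [3634, 2844, 2854, 2864, 2874, 3555, 2765, 2775, 2785, 2795]),
    (269025793, []),
    (167776769, [3796, 3006, 3016, 3026, 3036, 3717, 2927, 2937, 2947, 2957]),
    (138416641, [3876, 3086, 3096, 3106, 3116, 3718, 2928, 2938, 2948, 2958]),
    (37753345, []),
    (54530561, [1566, 1576, 1586, 1596, 3699, 4529, 3739, 3749, 3759]),
    (268964353, []),
    (151003649, [3715, 2925, 2935, 2945, 2955, 3636, 2846, 2856, 2866, 2876]),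
    (436216321, [4605, 3815, 3825, 3835, 4447, 3657, 3667, 3677]),
    (52437505, [4766, 3976, 3986, 3996, 4529, 3739, 3749, 3759]),
    (272638465, []),
    (39854593, [4765, 3975, 3985, 3995, 4449, 3659, 3669, 3679]),
    (268968449, []),
    (51126785, [1565, 1575, 1585, 1595, 3619, 4449, 3659, 3669, 3679]),
    (6398465, [4768, 3978, 3988, 3998, 4689, 3899, 3909, 3919]),
      (188744705, [1961, 1971, 1981, 1991, 4362, 3572, 3582, 3592, 3304, 4204, 3414, 3424, 3434,
      4126, 3336, 3346, 3356]),
      (52462593, [4201, 3411, 3421, 3431, 4122, 3332, 3342, 3352, 4124, 3334, 3344, 3354, 4129,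
      3339, 3349, 3359]),
    (167838721, [3391, 2601, 2611, 2621, 2631, 3312, 2522, 2532, 2542, 2552]),
      (184615937, [2891, 4521, 3731, 3741, 3751, 2892, 4602, 3812, 3822, 3832, 916, 4126, 3336,
      3346, 3356, 4207, 3417, 3427, 3437]),
      (404816897, [4201, 3411, 3421, 3431, 4122, 3332, 3342, 3352, 4686, 3896, 3906, 3916, 4528,
      3738, 3748, 3758]),
    (18940929, [3391, 2601, 2611, 2621, 2631, 3312, 2522, 2532, 2542, 2552]),
    (134546433, [3391, 2601, 2611, 2621, 2631, 3312, 2522, 2532, 2542, 2552]),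
      (9241601, [3931, 1491, 1501, 1511, 3932, 1572, 1582, 1592, 4098, 4138, 4948, 5758, 4179, 929,
      4139, 4949, 5759]),
    (272634881, [3711, 2921, 2931, 2941, 2951, 3316, 2526, 2536, 2546, 2556]),
    (7083009, [2361, 2371, 2381, 2391, 3309, 3329, 4139, 4949, 5759]),
    (167781377, [3791, 3001, 3011, 3021, 3031, 3317, 2527, 2537, 2547, 2557]),
    (17048577, [3951, 3161, 3171, 3181, 3191, 3319, 2529, 2539, 2549, 2559]),
    (268992577, []),
    (167837761, [3553, 2763, 2773, 2783, 2793, 3474, 2684, 2694, 2704, 2714]),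
      (404758593, [4443, 3653, 3663, 3673, 4285, 3495, 3505, 3515, 4446, 3656, 3666, 3676, 4288,
      3498, 3508, 3518]),
    (403447873, [4443, 3653, 3663, 3673, 4285, 3495, 3505, 3515]),
      (2891841, [4683, 3893, 3903, 3913, 4765, 3975, 3985, 3995, 4288, 3498, 3508, 3518, 4449, 3659,
      3669, 3679]),
      (2203713, [4763, 3973, 3983, 3993, 4766, 3976, 3986, 3996, 4768, 3978, 3988, 3998, 4289, 3499,
      3509, 3519]),
      (52429889, [4524, 3734, 3744, 3754, 4525, 3735, 3745, 3755, 4366, 3576, 3586, 3596, 4369,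
      3579, 3589, 3599]),
    (268502081, [3876, 3086, 3096, 3106, 3116, 3718, 2928, 2938, 2948, 2958]),
      (185073793, [2041, 2051, 2061, 2071, 3783, 4443, 3653, 3663, 3673, 3305, 4285, 3495, 3505,
      3515, 1887, 1897, 1907, 1917]),
      (302022785, [3711, 2921, 2931, 2941, 2951, 3553, 2763, 2773, 2783, 2793, 3474, 2684, 2694,
      2704, 2714, 3316, 2526, 2536, 2546, 2556]),
      (404783233, [4361, 3571, 3581, 3591, 4363, 3573, 3583, 3593, 4124, 3334, 3344, 3354, 4128,
      3338, 3348, 3358]),
    (318832769, [4521, 3731, 3741, 3751, 4126, 3336, 3346, 3356]),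
    (269287553, [4681, 3891, 3901, 3911, 4128, 3338, 3348, 3358]),
    (269058177, [4281, 3491, 3501, 3511, 4123, 3333, 3343, 3353]),
      (274735233, [4441, 3651, 3661, 3671, 4125, 3335, 3345, 3355, 4686, 3896, 3906, 3916, 4128,
      3338, 3348, 3358]),
      (272642177, [4441, 3651, 3661, 3671, 4523, 3733, 3743, 3753, 4125, 3335, 3345, 3355, 4126,
      3336, 3346, 3356]),
      (268710017, [4681, 3891, 3901, 3911, 4683, 3893, 3903, 3913, 4605, 3815, 3825, 3835, 4447,
      3657, 3667, 3677, 4128, 3338, 3348, 3358]),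
    (403452033, [4281, 3491, 3501, 3511, 4123, 3333, 3343, 3353]),
    (17040513, [3955, 3165, 3175, 3185, 3195, 3639, 2849, 2859, 2869, 2879]),
    (268960897, []),
    (268961409, [4441, 3651, 3661, 3671, 4125, 3335, 3345, 3355]),
    (50431617, [1561, 1571, 1581, 1591, 3299, 4129, 3339, 3349, 3359]),
      (54788105, [4443, 3653, 3663, 3673, 3964, 4774, 5584, 6394, 4285, 3495, 3505, 3515, 3569,
      4379, 5189, 5999]),
    (167804937, [3714, 2924, 2934, 2944, 2954, 3556, 2766, 2776, 2786, 2796]),
    (134545417, [3553, 2763, 2773, 2783, 2793, 3474, 2684, 2694, 2704, 2714]),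
    (272633865, [3715, 2925, 2935, 2945, 2955, 3636, 2846, 2856, 2866, 2876]),
    (20975625, [3955, 3165, 3175, 3185, 3195, 3639, 2849, 2859, 2869, 2879]),
    (4263945, [3958, 3168, 3178, 3188, 3198, 3879, 3089, 3099, 3109, 3119]),
      (268705801, [3793, 3003, 3013, 3023, 3033, 3875, 3085, 3095, 3105, 3115, 3477, 2687, 2697,
      2707, 2717, 3638, 2848, 2858, 2868, 2878]),
    (134480905, [3634, 2844, 2854, 2864, 2874, 3555, 2765, 2775, 2785, 2795]),
    (268960777, []),
    (268502025, [3876, 3086, 3096, 3106, 3116, 3718, 2928, 2938, 2948, 2958]),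
      (185073681, [4282, 3492, 3502, 3512, 3783, 4203, 3413, 3423, 3433, 3784, 4444, 3654, 3664,
      3674, 3385, 4365, 3575, 3585, 3595, 1887, 1897, 1907, 1917]),
      (137101329, [2682, 2692, 2702, 2712, 2743, 3393, 3563, 4373, 5183, 5993, 3624, 1874, 3484,
      4294, 5104, 5914, 1965, 1975, 1985, 1995]),
    (404754449, [4683, 3893, 3903, 3913, 4288, 3498, 3508, 3518]),
    (52432913, [4763, 3973, 3983, 3993, 4289, 3499, 3509, 3519]),
    (37752849, [3633, 2843, 2853, 2863, 2873, 3475, 2685, 2695, 2705, 2715]),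
    (403443729, [4443, 3653, 3663, 3673, 4285, 3495, 3505, 3515]),
    (7082001, [2363, 2373, 2383, 2393, 3469, 3489, 4299, 5109, 5919]),
    (136323089, [3715, 2925, 2935, 2945, 2955, 3636, 2846, 2856, 2866, 2876]),
    (268967953, []),
      (2142225, [4282, 3492, 3502, 3512, 4203, 3413, 3423, 3433, 4288, 3498, 3508, 3518, 4209, 3419,
      3429, 3439]),
    (18875409, [3634, 2844, 2854, 2864, 2874, 3555, 2765, 2775, 2785, 2795]),
    (2360337, [3954, 3164, 3174, 3184, 3194, 3559, 2769, 2779, 2789, 2799]),
      (2131473, [4362, 3572, 3582, 3592, 4204, 3414, 3424, 3434, 4208, 3418, 3428, 3438, 4689, 3899,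
      3909, 3919]),
    (50431505, [1562, 1572, 1582, 1592, 3379, 4209, 3419, 3429, 3439]),
      (408944849, [4523, 3733, 3743, 3753, 4444, 3654, 3664, 3674, 4365, 3575, 3585, 3595, 4286,
      3496, 3506, 3516]),
      (17039569, [3963, 4773, 5583, 6393, 4444, 3654, 3664, 3674, 4365, 3575, 3585, 3595, 3489,
      4299, 5109, 5919]),
      (2228433, [1483, 1573, 1583, 1593, 1474, 1484, 5334, 4544, 4554, 5176, 4386, 4396, 3458, 3498,
      3508, 3518, 4259, 3499, 3509, 3519]),
    (208146945, []),
    (745017857, []),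
    (741089793, []),
    (744595969, []),
    (713138689, []),
    (152150529, []),
    (202482177, []),
    (739353089, []),
    (741147649, [5821, 5031, 5742, 4952]),
    (145855489, [6301, 5511, 5748, 4958]),
    (45192193, [6381, 5591, 5749, 4959]),
    (285619201, [5011, 4221, 4231, 4932, 4142, 4152]),
    (740401217, [6143, 5353, 5906, 5116]),
    (674340929, [6303, 5513, 5908, 5118]),
    (185402433, []),
    (336397377, []),
    (546112577, []),
    (87131201, [6384, 5594, 5989, 5199]),
    (740308033, [6145, 5355, 6066, 5276]),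
    (87045185, [6385, 5595, 6069, 5279]),
    (201471041, []),
    (673330241, [6306, 5516, 6148, 5358]),
    (672543809, []),
    (361504897, [6061, 5271, 5745, 4955]),
    (360984705, [5901, 5111, 5743, 4953, 5745, 4955]),
    (740339841, [5901, 5111, 5743, 4953]),
    (279326849, [6301, 5511, 6303, 5513, 5748, 4958]),
    (208143489, []),
    (554009729, []),
    (226592385, [6141, 5351, 5746, 4956]),
    (145852033, [6301, 5511, 5748, 4958]),
    (218760833, [6221, 5431, 5747, 4957]),
    (224413313, [6141, 5351, 5746, 4956]),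
    (352601729, [6221, 5431, 6225, 5435, 5747, 4957]),
    (273958529, [6061, 5271, 5745, 4955]),
    (302040705, [5331, 4541, 4551, 4936, 4146, 4156]),
    (218154625, [6141, 5351, 5746, 4956]),
    (673236609, [6301, 5511, 5748, 4958]),
    (591466505, []),
    (560009225, []),
    (546115593, []),
    (342106121, [5253, 4463, 4473, 5095, 4305, 4315]),
    (202153993, []),
    (335912969, [5413, 4623, 4633, 5097, 4307, 4317]),
    (185402377, []),
    (336397321, []),
    (546112521, []),
    (92636169, [2384, 2394, 5149, 5189, 5999]),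
    (411317257, [5495, 4705, 4715, 5258, 4468, 4478]),
    (134624265, []),
    (227115025, [5902, 5112, 5823, 5033, 5824, 5034]),
    (576753681, []),
    (341872657, []),
    (676433937, [6303, 5513, 5908, 5118]),
    (280072209, [6303, 5513, 5908, 5118]),
    (208150545, []),
    (137469969, []),
    (218771473, [5902, 5112, 5823, 5033, 5827, 5037]),
    (208143377, []),
    (539243537, []),
    (137114641, []),
    (19018769, []),
    (225445393, [5982, 5192, 5824, 5034]),
    (740328977, [5982, 5192, 5824, 5034]),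
    (219252241, [6222, 5432, 5827, 5037]),
    (280069649, [6302, 5512, 5828, 5038]),
    (28411409, [6382, 5592, 5829, 5039]),
    (45188625, [6382, 5592, 5829, 5039]),
    (740300305, []),
    (545527313, []),
    (409998865, []),
    (277878289, []),
    (412096017, []),
    (37885457, []),
    (672536081, []),
    (207631889, []),
    (192951825, []),
    (553924113, []),
    (137377297, []),
    (218154513, [6142, 5352, 5826, 5036]),
    (86033937, [6382, 5592, 5829, 5039]),
    (740327633, [5983, 5193, 5904, 5114]),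
    (454066385, [5173, 4383, 4393, 5094, 4304, 4314]),
    (201916625, []),
    (202211537, []),
    (487686353, []),
    (410386641, [5983, 5193, 5904, 5114]),
    (494940369, [6145, 5355, 6066, 5276]),
    (19017937, []),
    (413282513, [6306, 5516, 6148, 5358]),
    (486818001, [6223, 5433, 6225, 5435, 5907, 5117]),
    (410271953, [6063, 5273, 5905, 5115]),
    (673235153, [6303, 5513, 5908, 5118]),
    (136462545, []),
    (19022033, []),
    (409125073, [6143, 5353, 5906, 5116]),
    (17219793, [5583, 6393, 5109, 5919]),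
    (3850449, [6313, 5918, 5859, 5889, 5919]),
    (553912529, [5254, 4464, 4474, 5175, 4385, 4395]),
    (218630353, [6064, 5274, 5985, 5195, 5987, 5197]),
    (137365713, []),
    (410257617, [6064, 5274, 5985, 5195]),
    (86018257, [6384, 5594, 5989, 5199]),
    (201459921, []),
    (738330833, []),
    (673319121, [6306, 5516, 6148, 5358]),
    (19007697, []),
    (86116561, [6386, 5596, 6149, 5359]),
    (134613201, []),
    (136480977, [6144, 5354, 5986, 5196]),
    (403605713, []),
    (672422097, []),
    (2152657, [6388, 5598, 6309, 5519]),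
    (1043739713, []),
    (398902913, []),
    (379991049, []),
    (514208777, []),
    (1045829137, []),
    (1003886097, []),
    (265688593, []),
    (399906321, []),
    (534130897, []),
    (533119185, []),
    (264945873, []),
    (1043728593, []),
    (970328273, []),
    (987105489, []),
    (265685201, []),
    (399902929, []),
    (264931537, []),
    (265193681, []),
    (532961489, []),
    (264788177, []),
    (261642449, []),
    (1042340049, []),
    (454613201, []),
    (253286609, []),
    (554129617, []),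
    (252401873, []),
    (138369233, []),
    (541022417, []),
    (675240145, []),
    (71260369, []),
    (410998993, [])]
/-- the codes of the positions left to Player 2 -/
def codes : List ℕ := Ps.map Prod.fst

/-- check a reply -/
def okReply (E v a : ℕ) : Bool :=
  Nat.blt v 10 && Nat.beq (get E v) 0 && Nat.blt 0 a && Nat.blt a 8 &&
    legalB (E + a * 8 ^ v) && memB (rel (E + a * 8 ^ v)) codes &&
    sameB (E + a * 8 ^ v) (rel (E + a * 8 ^ v))

/-- check an entry of the table -/
def check (p : ℕ × List ℕ) : Bool :=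
  (List.range 10).all fun v => !(Nat.beq (get p.1 v) 0) || (List.range 7).all fun a =>
    !legalB (p.1 + (a + 1) * 8 ^ v) || p.2.any fun r =>
      Nat.beq (r % 10) v && Nat.beq (r / 10 % 8) (a + 1) &&
        okReply (p.1 + (a + 1) * 8 ^ v) (r / 80 % 10) (r / 800)

theorem check_all : Ps.all check = true := by decide +kernel

theorem not_wins (n : ℕ) : ∀ N ∈ codes, (Finset.univ.filter fun v => dec N v = none).card = n →
    ¬ MoverWins (ladder 10) (dec N) := by
  induction n using Nat.strong_induction_on with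
  | _ n ih =>
    intro N hN hn hw
    obtain ⟨p, hp, rfl⟩ := List.mem_map.1 hN
    have hc := List.all_eq_true.1 check_all p hp
    rw [MoverWins] at hw
    obtain ⟨v, hv, a, hd, hw⟩ := hw
    have hv0 : get p.1 v = 0 := dec_eq_none.1 hv
    have hc1 := List.all_eq_true.1 hc v (List.mem_range.2 v.isLt)
    rw [hv0, show (!(Nat.beq 0 0)) = false from rfl, Bool.false_or] at hc1
    have hc2 := List.all_eq_true.1 hc1 a (List.mem_range.2 a.isLt)
    rw [← dec_add p.1 v hv0 a] at hd hw
    have hleg := (legalB_iff _).2 hd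
    rw [hleg, Bool.not_true, Bool.false_or, List.any_eq_true] at hc2
    obtain ⟨r, _, hr⟩ := hc2
    rw [Bool.and_eq_true] at hr
    have hr := hr.2
    set E := p.1 + (a + 1) * 8 ^ (v : ℕ) with hE
    unfold okReply at hr
    simp only [Bool.and_eq_true, Nat.blt_eq, beqN_iff, memB_iff] at hr
    obtain ⟨⟨⟨⟨⟨⟨hv', hg'⟩, ha0⟩, ha8⟩, hl'⟩, hmem⟩, hsame⟩ := hr
    obtain ⟨a', ha'⟩ : ∃ a' : Fin 7, (a' : ℕ) + 1 = r / 800 :=
      ⟨⟨r / 800 - 1, by omega⟩, by simp only; omega⟩
    let w : Fin 10 := ⟨r / 80 % 10, hv'⟩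
    rw [← ha'] at hl' hmem hsame
    have hgw : get E w = 0 := hg'
    apply hw
    rw [MoverWins]
    refine ⟨w, dec_eq_none.2 hgw, a', ?_, ?_⟩
    · rw [← dec_add E w hgw a']; exact (legalB_iff _).1 hl'
    · rw [← dec_add E w hgw a']
      obtain ⟨σ, hσ⟩ := same_perm hsame
      have hmem' : rel (E + (a' + 1) * 8 ^ (w : ℕ)) ∈ codes := hmem
      have hcard : (Finset.univ.filter fun x =>
          dec (rel (E + (a' + 1) * 8 ^ (w : ℕ))) x = none).card < n := by
        rw [← hn]
        apply Finset.card_lt_card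
        rw [Finset.ssubset_iff_of_subset]
        · refine ⟨v, by simp [hv], ?_⟩
          rw [Finset.mem_filter, not_and]
          intro _ h
          have h2 : dec (rel (E + (a' + 1) * 8 ^ (w : ℕ))) v =
              (dec (E + (a' + 1) * 8 ^ (w : ℕ)) v).map σ := hσ v
          rw [h, dec_add E w hgw a', dec_add p.1 v hv0 a] at h2
          have hvw : v ≠ w := by
            intro h
            have : dec E v = none := by rw [h]; exact dec_eq_none.2 hgw
            rw [hE, dec_add p.1 v hv0 a, Function.update_self] at this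
            simp at this
          rw [Function.update_of_ne hvw, Function.update_self] at h2
          simp at h2
        · intro x hx
          rw [Finset.mem_filter] at hx ⊢
          refine ⟨hx.1, ?_⟩
          have h2 : dec (rel (E + (a' + 1) * 8 ^ (w : ℕ))) x =
              (dec (E + (a' + 1) * 8 ^ (w : ℕ)) x).map σ := hσ x
          rw [hx.2] at h2
          have h3 : dec (E + (a' + 1) * 8 ^ (w : ℕ)) x = none := by
            simpa using h2.symm
          rw [dec_add E w hgw a'] at h3
          have hxw : x ≠ w := by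
            rintro rfl
            simp at h3
          rw [Function.update_of_ne hxw, hE, dec_add p.1 v hv0 a] at h3
          have hxv : x ≠ v := by
            rintro rfl
            simp at h3
          rwa [Function.update_of_ne hxv] at h3
      have hnot := ih _ hcard _ hmem' rfl
      intro hwin
      apply hnot
      have hfun : dec (rel (E + (a' + 1) * 8 ^ (w : ℕ))) =
          fun x => (dec (E + (a' + 1) * 8 ^ (w : ℕ)) x).map σ := funext hσ
      rw [hfun]
      exact (wins_map σ _ _ rfl).2 hwin

/-! ### `λ(T_10) = 7` -/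

set_option synthInstance.maxSize 100000 in
theorem no_six : ∀ c0 c1 : Fin 6, c1 ≠ c0 → ∀ c2 : Fin 6, c2 ≠ c0 → c2 ≠ c1 →
    ∀ c3 : Fin 6, c3 ≠ c0 → c3 ≠ c1 → c3 ≠ c2 →
    ∀ c4 : Fin 6, c4 ≠ c0 → c4 ≠ c1 → c4 ≠ c2 → c4 ≠ c3 →
    ∀ c5 : Fin 6, c5 ≠ c1 → c5 ≠ c2 → c5 ≠ c3 → c5 ≠ c4 →
    ∀ c6 : Fin 6, c6 ≠ c2 → c6 ≠ c3 → c6 ≠ c4 → c6 ≠ c5 →
      ¬ (c5 = c0 ∧ c6 = c1) →
    ∀ c7 : Fin 6, c7 ≠ c3 → c7 ≠ c4 → c7 ≠ c5 → c7 ≠ c6 →
      ¬ (c5 = c0 ∧ c7 = c1) → ¬ (c5 = c0 ∧ c7 = c2) →
      ¬ (c6 = c0 ∧ c7 = c1) → ¬ (c6 = c0 ∧ c7 = c2) → ¬ (c6 = c1 ∧ c7 = c0) →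
      ¬ (c6 = c1 ∧ c7 = c2) → False := by
  decide +kernel

theorem not_six (c : Fin 10 → Fin 6) : ¬ Distinguishing (ladder 10) fun v => some (c v) := by
  intro h
  -- distinct edges have distinct multisets
  have ne : ∀ u v u' v' : Fin 10, (ladder 10).Adj u v → (ladder 10).Adj u' v' →
      s(u, v) ≠ s(u', v') → ¬ (c u = c u' ∧ c v = c v') := by
    rintro u v u' v' a1 a2 hne ⟨e1, e2⟩
    exact hne (h u v u' v' a1 a2 (by simp) (by simp) (by simp) (by simp)
      (by simp only [e1, e2]))
  have adj : ∀ u v : Fin 10, (u ≠ v ∧ (u : ℕ) ≤ v + 2 ∧ (v : ℕ) ≤ u + 2) → (ladder 10).Adj u v :=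
    fun _ _ h => h
  -- vertices with a common neighbour have distinct colours
  have cn : ∀ u v w : Fin 10, (ladder 10).Adj u w → (ladder 10).Adj v w →
      s(u, w) ≠ s(v, w) → c u ≠ c v := fun u v w a1 a2 hne e => ne u w v w a1 a2 hne ⟨e, rfl⟩
  refine no_six (c 0) (c 1) ?_ (c 2) ?_ ?_ (c 3) ?_ ?_ ?_ (c 4) ?_ ?_ ?_ ?_ (c 5) ?_ ?_ ?_ ?_
    (c 6) ?_ ?_ ?_ ?_ ?_ (c 7) ?_ ?_ ?_ ?_ ?_ ?_ ?_ ?_ ?_ ?_
  · exact cn 1 0 2 (adj _ _ (by decide)) (adj _ _ (by decide)) (by decide)
  · exact cn 2 0 1 (adj _ _ (by decide)) (adj _ _ (by decide)) (by decide)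
  · exact cn 2 1 3 (adj _ _ (by decide)) (adj _ _ (by decide)) (by decide)
  · exact cn 3 0 1 (adj _ _ (by decide)) (adj _ _ (by decide)) (by decide)
  · exact cn 3 1 2 (adj _ _ (by decide)) (adj _ _ (by decide)) (by decide)
  · exact cn 3 2 4 (adj _ _ (by decide)) (adj _ _ (by decide)) (by decide)
  · exact cn 4 0 2 (adj _ _ (by decide)) (adj _ _ (by decide)) (by decide)
  · exact cn 4 1 3 (adj _ _ (by decide)) (adj _ _ (by decide)) (by decide)
  · exact cn 4 2 3 (adj _ _ (by decide)) (adj _ _ (by decide)) (by decide)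
  · exact cn 4 3 5 (adj _ _ (by decide)) (adj _ _ (by decide)) (by decide)
  · exact cn 5 1 3 (adj _ _ (by decide)) (adj _ _ (by decide)) (by decide)
  · exact cn 5 2 4 (adj _ _ (by decide)) (adj _ _ (by decide)) (by decide)
  · exact cn 5 3 4 (adj _ _ (by decide)) (adj _ _ (by decide)) (by decide)
  · exact cn 5 4 6 (adj _ _ (by decide)) (adj _ _ (by decide)) (by decide)
  · exact cn 6 2 4 (adj _ _ (by decide)) (adj _ _ (by decide)) (by decide)
  · exact cn 6 3 5 (adj _ _ (by decide)) (adj _ _ (by decide)) (by decide)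
  · exact cn 6 4 5 (adj _ _ (by decide)) (adj _ _ (by decide)) (by decide)
  · exact cn 6 5 7 (adj _ _ (by decide)) (adj _ _ (by decide)) (by decide)
  · exact ne 5 6 0 1 (adj _ _ (by decide)) (adj _ _ (by decide)) (by decide)
  · exact cn 7 3 5 (adj _ _ (by decide)) (adj _ _ (by decide)) (by decide)
  · exact cn 7 4 6 (adj _ _ (by decide)) (adj _ _ (by decide)) (by decide)
  · exact cn 7 5 6 (adj _ _ (by decide)) (adj _ _ (by decide)) (by decide)
  · exact cn 7 6 8 (adj _ _ (by decide)) (adj _ _ (by decide)) (by decide)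
  · exact ne 5 7 0 1 (adj _ _ (by decide)) (adj _ _ (by decide)) (by decide)
  · exact ne 5 7 0 2 (adj _ _ (by decide)) (adj _ _ (by decide)) (by decide)
  · exact ne 6 7 0 1 (adj _ _ (by decide)) (adj _ _ (by decide)) (by decide)
  · exact ne 6 7 0 2 (adj _ _ (by decide)) (adj _ _ (by decide)) (by decide)
  · exact ne 6 7 1 0 (adj _ _ (by decide)) (adj _ _ (by decide)) (by decide)
  · exact ne 6 7 1 2 (adj _ _ (by decide)) (adj _ _ (by decide)) (by decide)

/-- code of the `7`-colouring `1, 2, 3, 4, 5, 1, 6, 7, 2, 5` -/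
def goodCode : ℕ := 1 + 2 * 8 + 3 * 8 ^ 2 + 4 * 8 ^ 3 + 5 * 8 ^ 4 + 1 * 8 ^ 5 + 6 * 8 ^ 6 +
  7 * 8 ^ 7 + 2 * 8 ^ 8 + 5 * 8 ^ 9

theorem lam_eq : lam (ladder 10) = 7 := by
  apply le_antisymm
  · apply Nat.sInf_le
    have hl : legalB goodCode = true := by decide +kernel
    have hall : ∀ v : Fin 10, (dec goodCode v).isSome = true := by decide +kernel
    refine ⟨fun v => (dec goodCode v).get (hall v), ?_⟩
    have : (fun v => some ((dec goodCode v).get (hall v))) = dec goodCode := by
      funext v; simp
    rw [this]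
    exact (legalB_iff _).1 hl
  · have hne : {k | ∃ c : Fin 10 → Fin k, Distinguishing (ladder 10) fun v => some (c v)}.Nonempty := by
      have hl : legalB goodCode = true := by decide +kernel
      have hall : ∀ v : Fin 10, (dec goodCode v).isSome = true := by decide +kernel
      refine ⟨7, fun v => (dec goodCode v).get (hall v), ?_⟩
      have : (fun v => some ((dec goodCode v).get (hall v))) = dec goodCode := by
        funext v; simp
      rw [this]
      exact (legalB_iff _).1 hl
    obtain ⟨c, hc⟩ := Nat.sInf_mem hne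
    by_contra hlt
    have hle : sInf {k | ∃ c : Fin 10 → Fin k, Distinguishing (ladder 10) fun v => some (c v)} ≤ 6 := by
      have : lam (ladder 10) < 7 := not_le.1 hlt
      unfold lam at this
      omega
    have hc' := (dist_map (Fin.castLE hle) (Fin.castLE_injective hle) _).2 hc
    exact not_six (fun v => Fin.castLE hle (c v)) (by simpa using hc')

/-- Player 1 has a winning strategy in the edge-distinguishing game on the triangular ladder
`T_10` (played with `λ(T_10)` colours), so it is not true that Player 2 wins on `T_n` for every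
`n ≥ 4`. -/
theorem result : PlayerOneWins (ladder 10) ∧ ¬ ∀ n : ℕ, 4 ≤ n → ¬ PlayerOneWins (ladder n) := by
  have h : PlayerOneWins (ladder 10) := by
    unfold PlayerOneWins
    rw [lam_eq]
    rw [MoverWins]
    have h0 : (fun _ : Fin 10 => (none : Option (Fin 7))) = dec 0 := by
      funext v
      rw [eq_comm, dec_eq_none, get_def, Nat.zero_div]
    have h1 := dec_add 0 0 (by decide) 0
    rw [h0]
    refine ⟨0, (dec_eq_none (N := 0) (v := 0)).2 (by decide), 0, ?_, ?_⟩
    · rw [← h1, ← legalB_iff]; decide +kernel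
    · rw [← h1]
      exact not_wins _ _ (by decide +kernel) rfl
  exact ⟨h, fun H => H 10 (by norm_num) h⟩

end Pool.Agent.Results.MP_08a4a0_co.PlayerOneWinsT10
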